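import Mathlib

/-! A homogeneous compact geodesic space with infinite cop number (helper135). -/

namespace Pool.Agent.Results.MP_cb1e0a_co.HomogeneousInfiniteCopNumber

open Set

/-- A game space: a compact metric space in which any two points `x`, `y` are joined by a path
whose length (total variation) is the distance of `x` and `y`. -/
def IsGameSpace (X : Type) [MetricSpace X] : Prop :=
  CompactSpace X ∧ ∀ x y : X, ∃ γ : ℝ → X, Continuous γ ∧ γ 0 = x ∧ γ 1 = y ∧
    eVariationOn γ (Icc 0 1) = edist x y

/-- The isometry group acts transitively. -/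
def Homogeneous (X : Type) [MetricSpace X] : Prop :=
  ∀ x y : X, ∃ φ : X ≃ᵢ X, φ x = y

/-- A strategy of the robber against `k` cops: the initial positions, an agility function with
divergent sum (`tau n` is the agility of step `n + 1`), and for every step `n + 1` the new position
of the robber as a function of the positions of the cops at the times `0, …, n`. -/
structure RobberStrategy (k : ℕ) (X : Type) [MetricSpace X] where
  start : X
  copStart : Fin k → X
  tau : ℕ → ℝ
  tau_pos : ∀ n, 0 < tau n
  tau_sum : Filter.Tendsto (fun N => ∑ n ∈ Finset.range N, tau n) Filter.atTop Filter.atTop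
  move : (n : ℕ) → (Fin (n + 1) → Fin k → X) → X

/-- The positions of the robber when the cops are at `c n` at time `n`. -/
def RobberStrategy.pos {k : ℕ} {X : Type} [MetricSpace X] (S : RobberStrategy k X)
    (c : ℕ → Fin k → X) : ℕ → X
  | 0 => S.start
  | n + 1 => S.move n fun i => c i

/-- The robber beats `k` cops: some strategy of the robber is legal and keeps a positive distance
from all cops forever, whatever legal moves the cops make. -/
def RobberWins (k : ℕ) (X : Type) [MetricSpace X] : Prop :=
  ∃ S : RobberStrategy k X, ∀ c : ℕ → Fin k → X, c 0 = S.copStart →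
    (∀ n i, dist (c n i) (c (n + 1) i) ≤ S.tau n) →
      (∀ n, dist (S.pos c n) (S.pos c (n + 1)) ≤ S.tau n) ∧
        ∃ ε > 0, ∀ n i, ε ≤ dist (S.pos c n) (c n i)

/-- The circle of circumference one. -/
abbrev Circ : Type := AddCircle (1 : ℝ)

/-- The product of countably many circles, the `i`-th one scaled by `2⁻ⁱ`, with the sup metric. -/
def Tor : Type := ℕ → Circ

theorem circ_le (x y : Circ) : dist x y ≤ 1 / 2 := by
  rw [dist_eq_norm]
  have := AddCircle.norm_le_half_period (1 : ℝ) (x := x - y) one_ne_zero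
  simpa using this

/-- The terms of the metric. -/
noncomputable def tm (x y : Tor) (i : ℕ) : ℝ := (1 / 2) ^ i * dist (x i) (y i)

theorem tm_nonneg (x y : Tor) (i : ℕ) : 0 ≤ tm x y i :=
  mul_nonneg (by positivity) dist_nonneg

theorem tm_le (x y : Tor) (i : ℕ) : tm x y i ≤ (1 / 2) ^ i := by
  have h1 : dist (x i) (y i) ≤ 1 := (circ_le _ _).trans (by norm_num)
  calc tm x y i ≤ (1 / 2) ^ i * 1 := mul_le_mul_of_nonneg_left h1 (by positivity)
    _ = (1 / 2) ^ i := mul_one _

theorem tm_le_one (x y : Tor) (i : ℕ) : tm x y i ≤ 1 :=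
  (tm_le x y i).trans (pow_le_one₀ (by norm_num) (by norm_num))

theorem tm_bdd (x y : Tor) : BddAbove (range (tm x y)) := by
  refine ⟨1, ?_⟩
  rintro _ ⟨i, rfl⟩
  exact tm_le_one x y i

noncomputable instance : MetricSpace Tor where
  dist x y := ⨆ i, tm x y i
  dist_self x := by
    have : ∀ i, tm x x i = 0 := fun i => by simp [tm]
    simp [this]
  dist_comm x y := by
    have : tm x y = tm y x := by
      funext i
      simp [tm, dist_comm]
    change (⨆ i, tm x y i) = ⨆ i, tm y x i
    rw [this]
  dist_triangle x y z := by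
    refine ciSup_le fun i => ?_
    have h1 : tm x z i ≤ tm x y i + tm y z i := by
      simp only [tm]
      rw [← mul_add]
      exact mul_le_mul_of_nonneg_left (dist_triangle _ _ _) (by positivity)
    exact h1.trans (add_le_add (le_ciSup (tm_bdd x y) i) (le_ciSup (tm_bdd y z) i))
  eq_of_dist_eq_zero {x y} h := by
    funext i
    have h1 : tm x y i ≤ 0 := by
      have := le_ciSup (tm_bdd x y) i
      exact this.trans (le_of_eq h)
    have h2 : tm x y i = 0 := le_antisymm h1 (tm_nonneg x y i)
    simp only [tm] at h2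
    rcases mul_eq_zero.1 h2 with h3 | h3
    · exact absurd h3 (by positivity)
    · exact dist_eq_zero.1 h3

theorem dist_def (x y : Tor) : dist x y = ⨆ i, tm x y i := rfl

theorem tm_le_dist (x y : Tor) (i : ℕ) : tm x y i ≤ dist x y := le_ciSup (tm_bdd x y) i

theorem dist_le_of {x y : Tor} {r : ℝ} (h : ∀ i, tm x y i ≤ r) : dist x y ≤ r := ciSup_le h

/-- The identity from the product topology. -/
def toTor (x : ℕ → Circ) : Tor := x

theorem toTor_continuous : Continuous toTor := by
  rw [continuous_iff_continuousAt]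
  intro x
  rw [ContinuousAt, Metric.tendsto_nhds]
  intro ε hε
  obtain ⟨N, hN⟩ := exists_pow_lt_of_lt_one (show (0 : ℝ) < ε / 2 by linarith)
    (show (1 / 2 : ℝ) < 1 by norm_num)
  have h1 : ∀ᶠ y : ℕ → Circ in nhds x, ∀ i ∈ Finset.range N, dist (y i) (x i) < ε / 2 := by
    rw [Filter.eventually_all_finset]
    intro i _
    have : ContinuousAt (fun y : ℕ → Circ => y i) x := (continuous_apply i).continuousAt
    exact (Metric.tendsto_nhds.1 this) (ε / 2) (by linarith)
  filter_upwards [h1] with y hy
  have : dist (toTor y) (toTor x) ≤ ε / 2 := by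
    refine dist_le_of fun i => ?_
    by_cases hi : i < N
    · have h2 := (hy i (Finset.mem_range.2 hi)).le
      have h3 : ((1 : ℝ) / 2) ^ i ≤ 1 := pow_le_one₀ (by norm_num) (by norm_num)
      calc tm (toTor y) (toTor x) i ≤ 1 * dist (y i) (x i) :=
            mul_le_mul_of_nonneg_right h3 dist_nonneg
        _ = dist (y i) (x i) := one_mul _
        _ ≤ ε / 2 := h2
    · refine (tm_le _ _ i).trans ?_
      refine le_trans ?_ hN.le
      exact pow_le_pow_of_le_one (by norm_num) (by norm_num) (not_lt.1 hi)
  linarith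

theorem tor_compact : CompactSpace Tor := by
  constructor
  have h1 : IsCompact (toTor '' (univ : Set (ℕ → Circ))) := isCompact_univ.image toTor_continuous
  have h2 : toTor '' (univ : Set (ℕ → Circ)) = univ := by
    rw [image_univ, range_eq_univ]
    exact fun x => ⟨x, rfl⟩
  rwa [h2] at h1

theorem circ_lift (z : Circ) : ∃ a : ℝ, (a : Circ) = z ∧ |a| ≤ 1 / 2 := by
  obtain ⟨b, rfl⟩ := QuotientAddGroup.mk_surjective z
  refine ⟨b - round b, ?_, abs_sub_round b⟩
  have h : ((round b : ℤ) : ℝ) = (round b : ℤ) • (1 : ℝ) := by simp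
  have h2 : (((round b : ℤ) : ℝ) : Circ) = 0 := by
    rw [h, AddCircle.coe_zsmul, AddCircle.coe_period, smul_zero]
  rw [AddCircle.coe_sub, h2, sub_zero]

theorem circ_norm_le (a : ℝ) : ‖(a : Circ)‖ ≤ |a| := by
  rw [← Real.norm_eq_abs]
  exact QuotientAddGroup.norm_mk_le_norm

theorem circ_norm {a : ℝ} (h : |a| ≤ 1 / 2) : ‖(a : Circ)‖ = |a| := by
  rw [AddCircle.norm_coe_eq_abs_iff (1 : ℝ) one_ne_zero]
  simpa using h

theorem tor_geodesic (x y : Tor) : ∃ γ : ℝ → Tor, Continuous γ ∧ γ 0 = x ∧ γ 1 = y ∧
    eVariationOn γ (Icc 0 1) = edist x y := by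
  choose a ha ha' using fun i => circ_lift (y i - x i)
  have hd : ∀ i, dist (x i) (y i) = |a i| := by
    intro i
    rw [dist_comm, dist_eq_norm, ← ha i, circ_norm (ha' i)]
  set γ : ℝ → Tor := fun t i => x i + ((t * a i : ℝ) : Circ) with hγ
  have h0 : γ 0 = x := by
    funext i
    simp [hγ]
  have h1 : γ 1 = y := by
    funext i
    simp only [hγ]
    rw [one_mul, ha i]
    abel
  have hL : ∀ s t, dist (γ s) (γ t) ≤ dist x y * dist s t := by
    intro s t
    refine dist_le_of fun i => ?_
    have e1 : dist (γ s i) (γ t i) ≤ |s - t| * |a i| := by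
      simp only [hγ]
      rw [dist_add_left, dist_eq_norm, ← AddCircle.coe_sub, ← sub_mul, ← abs_mul]
      exact circ_norm_le _
    have e2 := tm_le_dist x y i
    simp only [tm] at e2 ⊢
    rw [hd i] at e2
    calc (1 / 2) ^ i * dist (γ s i) (γ t i) ≤ (1 / 2) ^ i * (|s - t| * |a i|) :=
          mul_le_mul_of_nonneg_left e1 (by positivity)
      _ = ((1 / 2) ^ i * |a i|) * |s - t| := by ring
      _ ≤ dist x y * |s - t| := mul_le_mul_of_nonneg_right e2 (abs_nonneg _)
      _ = dist x y * dist s t := by rw [Real.dist_eq]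
  have hLip : LipschitzWith (Real.toNNReal (dist x y)) γ := by
    refine LipschitzWith.of_dist_le_mul fun s t => ?_
    rw [Real.coe_toNNReal _ dist_nonneg]
    exact hL s t
  refine ⟨γ, hLip.continuous, h0, h1, le_antisymm ?_ ?_⟩
  · have e := (hLip.lipschitzOnWith (s := Icc (0 : ℝ) 1)).comp_eVariationOn_le
      (g := fun t : ℝ => t) (t := Icc (0 : ℝ) 1) (fun t ht => ht)
    have e2 : eVariationOn (fun t : ℝ => t) (Icc (0 : ℝ) 1) ≤ ENNReal.ofReal (1 - 0) := by
      have := MonotoneOn.eVariationOn_eq (f := fun t : ℝ => t) (s := Icc (0 : ℝ) 1)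
        (fun a _ b _ hab => hab) (a := 0) (b := 1) (by simp) (by simp)
      rw [inter_self] at this
      exact this.le
    calc eVariationOn γ (Icc 0 1) ≤ (Real.toNNReal (dist x y) : ENNReal) *
          eVariationOn (fun t : ℝ => t) (Icc (0 : ℝ) 1) := e
      _ ≤ (Real.toNNReal (dist x y) : ENNReal) * ENNReal.ofReal (1 - 0) := by gcongr
      _ = edist x y := by
        rw [edist_dist]
        simp [ENNReal.ofReal]
  · have := eVariationOn.edist_le γ (s := Icc (0 : ℝ) 1) (x := 0) (y := 1) (by simp) (by simp)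
    rwa [h0, h1] at this

theorem tor_homogeneous : Homogeneous Tor := by
  intro x y
  have key : ∀ v : ℕ → Circ, ∀ z w : Tor,
      dist (toTor fun i => z i + v i) (toTor fun i => w i + v i) = dist z w := by
    intro v z w
    rw [dist_def, dist_def]
    congr 1
    funext i
    simp [tm, toTor]
  refine ⟨⟨⟨fun z => toTor fun i => z i + (y i - x i), fun z => toTor fun i => z i + (x i - y i),
    ?_, ?_⟩, ?_⟩, ?_⟩
  · intro z
    funext i
    simp only [toTor]
    abel
  · intro z
    funext i
    simp only [toTor]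
    abel
  · exact Isometry.of_dist_eq fun z w => key (fun i => y i - x i) z w
  · change (toTor fun i => x i + (y i - x i)) = y
    funext i
    simp only [toTor]
    abel

/-- The antipode. -/
noncomputable def half : Circ := ((1 / 2 : ℝ) : Circ)

theorem norm_half : ‖half‖ = 1 / 2 := by
  rw [half, circ_norm]
  · rw [abs_of_nonneg]; norm_num
  · rw [abs_of_nonneg]; norm_num

/-- The position of the robber opposite to the cops: coordinate `j` is the antipode of the
coordinate `j` of cop `j`. -/
noncomputable def opp {k : ℕ} (c : Fin k → Tor) : Tor :=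
  fun j => if h : j < k then c ⟨j, h⟩ j + half else 0

theorem opp_dist {k : ℕ} {c c' : Fin k → Tor} {r : ℝ} (hr : 0 ≤ r)
    (h : ∀ i, dist (c i) (c' i) ≤ r) : dist (opp c) (opp c') ≤ r := by
  refine dist_le_of fun j => ?_
  simp only [tm, opp]
  split_ifs with hj
  · rw [dist_add_right]
    exact (tm_le_dist (c ⟨j, hj⟩) (c' ⟨j, hj⟩) j).trans (h _)
  · simpa using hr

/-- The strategy of the robber. -/
noncomputable def strat (k : ℕ) : RobberStrategy k Tor where
  start := opp (k := k) fun _ => toTor fun _ => 0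
  copStart := fun _ => toTor fun _ => 0
  tau := fun _ => (1 / 2) ^ (k + 2)
  tau_pos := fun _ => by positivity
  tau_sum := by
    simp only [Finset.sum_const, Finset.card_range, nsmul_eq_mul]
    exact Filter.Tendsto.atTop_mul_const (by positivity) tendsto_natCast_atTop_atTop
  move := fun n c => opp (c (Fin.last n))

theorem strat_pos {k : ℕ} {c : ℕ → Fin k → Tor} (hc : c 0 = (strat k).copStart) (n : ℕ) :
    (strat k).pos c n = opp (c (n - 1)) := by
  match n with
  | 0 =>
    simp only [RobberStrategy.pos]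
    rw [show (0 : ℕ) - 1 = 0 from rfl, hc]
    rfl
  | n + 1 => rfl

theorem robber_wins (k : ℕ) : RobberWins k Tor := by
  refine ⟨strat k, ?_⟩
  intro c hc hstep
  have hτ0 : (0 : ℝ) < (1 / 2) ^ (k + 2) := by positivity
  have hstep' : ∀ n i, dist (c n i) (c (n + 1) i) ≤ (1 / 2) ^ (k + 2) := hstep
  constructor
  · intro n
    rw [strat_pos hc, strat_pos hc]
    refine opp_dist hτ0.le fun i => ?_
    match n with
    | 0 =>
      rw [show (0 : ℕ) - 1 = 0 + 1 - 1 from rfl, dist_self]
      exact hτ0.le
    | n + 1 => exact hstep n i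
  · refine ⟨(1 / 2) ^ (k + 2), hτ0, fun n i => ?_⟩
    rw [strat_pos hc]
    have h1 : tm (opp (c (n - 1))) (c n i) i ≤ dist (opp (c (n - 1))) (c n i) := tm_le_dist _ _ _
    refine le_trans ?_ h1
    have h2 : tm (c (n - 1) i) (c n i) i ≤ (1 / 2) ^ (k + 2) := by
      refine (tm_le_dist _ _ _).trans ?_
      match n with
      | 0 =>
        rw [show (0 : ℕ) - 1 = 0 from rfl, dist_self]
        exact hτ0.le
      | n + 1 => exact hstep' n i
    simp only [tm, opp] at h2 ⊢
    rw [dif_pos i.2]
    have h3 : (1 : ℝ) / 2 ≤ dist (c (n - 1) i i + half) (c n i i) +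
        dist (c (n - 1) i i) (c n i i) := by
      calc (1 : ℝ) / 2 = dist (c (n - 1) i i + half) (c (n - 1) i i) := by
            rw [dist_eq_norm, add_sub_cancel_left, norm_half]
        _ ≤ dist (c (n - 1) i i + half) (c n i i) + dist (c n i i) (c (n - 1) i i) :=
            dist_triangle _ _ _
        _ = _ := by rw [dist_comm (c n i i)]
    have h4 : ((1 : ℝ) / 2) ^ (k + 2) * 4 ≤ (1 / 2) ^ (i : ℕ) := by
      have : ((1 : ℝ) / 2) ^ (k + 2) * 4 = (1 / 2) ^ k := by
        rw [pow_add]; ring
      rw [this]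
      exact pow_le_pow_of_le_one (by norm_num) (by norm_num) i.2.le
    have h5 := mul_le_mul_of_nonneg_left h3 (show (0 : ℝ) ≤ (1 / 2) ^ (i : ℕ) by positivity)
    rw [mul_add] at h5
    linarith

/-- There is a homogeneous game space on which the robber beats `k` cops for every `k`. -/
theorem result : ∃ (X : Type) (_ : MetricSpace X), IsGameSpace X ∧ Homogeneous X ∧
    ∀ k : ℕ, RobberWins k X :=
  ⟨Tor, inferInstance, ⟨tor_compact, tor_geodesic⟩, tor_homogeneous, robber_wins⟩

end Pool.Agent.Results.MP_cb1e0a_co.HomogeneousInfiniteCopNumber
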